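import Pool.Agent.P.MP_52ab5a_al.OpenZ

/-! The open orbit conjecture of Geiss, Leclerc and Schroeer. -/

namespace Pool.Agent.Results.MP_52ab5a_al.OpenOrbitFull

open Pool.Agent.P.MP_52ab5a_al

theorem result :
    ∀ (Q₀ Q₁ : Type) [DecidableEq Q₀] [Fintype Q₁] (s t : Q₁ → Q₀), (∀ a, s a ≠ t a) →
      ∀ (n : ℕ) (vx : Fin n → Q₀) (Z : Set (Ent s t vx ⊕ Ent s t vx → ℂ)),
        IsComponent Z (nilVar s t vx) → (∃ y, OpenIn (orbit s t vx y) Z) →
        ∃ b ∈ dualCan s t vx (Fin n),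
          (∀ js, GenericValue Z (fun y => str (types s t vx (Fin n) y) js)
            (str {i | b i ≠ 0} js)) ∧
          ∀ i, GenericValue Z (flagChi s t vx i) (b i) := by
  intro Q₀ Q₁ _ _ s t hst n vx Z hZ h
  obtain ⟨y, hy⟩ := h
  refine all_MAIN Q₀ Q₁ s t hst n vx Z hZ ⟨y, ?_, OpenZAux.open_nil s t vx Z hZ y hy⟩
  obtain ⟨W, -, e⟩ := hy
  rw [e]
  exact Set.diff_subset

end Pool.Agent.Results.MP_52ab5a_al.OpenOrbitFull
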